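import Pool.Agent.H51.EI.TargetsC

/-! DETK: the theorem for `ℚ` and for the imaginary quadratic fields. -/

set_option autoImplicit false

open Polynomial Finset

namespace Pool.Agent.H13.EI.DETK

open Pool.Agent.H51.EI

/-- the theorem for `ℚ` and for the imaginary quadratic fields -/
theorem pf_DETK (hDET : T_DET) (hDSK : T_DSK) (hKKK : T_KKK) (hRPK : T_RPK) (hFRK : T_FRK) :
    T_DETK := by
  intro K t w hK ht ht0 hw hexp
  have hKK : KK (OI K) = K := hKKK K hK
  refine hDET (OI K) t w (hDSK K hK) (hFRK K hK) (hRPK K hK) (by rw [hKK]; exact ht) ht0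
    (fun i j => ?_) (fun i j => by rw [hKK]; exact hexp i j)
  have h1 : Subfield.closure ((K : Set ℂ) ∪ {Complex.exp t}) ≤ KX (OI K) (Complex.exp t) := by
    unfold KX
    rw [Subfield.closure_le]
    rintro x (hx | hx)
    · have h2 : x ∈ KK (OI K) := by rw [hKK]; exact hx
      exact Subfield.closure_mono Set.subset_union_left h2
    · exact Subfield.subset_closure (Set.mem_union_right _ hx)
  exact h1 (hw i j)

end Pool.Agent.H13.EI.DETK
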